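import Pool.Agent.Helper93.Tet.Rank

/-!
Two new one-parameter families of tetrahedra with vanishing Dehn invariant.

`E` is Euclidean 3-space, `dihedral a b c d` is the dihedral angle of the tetrahedron `abcd` at
its edge `ab`, `dehn a b c d` is the Dehn invariant in `ℝ ⊗ (ℝ / πℤ)` and
`HasEdges a b c d l1 l2 l3 l4 l5 l6` says that the edges `ab, ac, ad, bc, bd, cd` have lengths
`l1, ..., l6`.
-/

namespace Pool.Agent.Results.MP_6c15a0_gt.DehnFamily

open Pool.Agent.Helper93.Tet Real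

theorem result :
    (∀ m : ℝ, 4 < m →
      (∃ a b c d : E, AffineIndependent ℝ ![a, b, c, d] ∧
        HasEdges a b c d (m + 1) (m + 1) m 6 (m - 1) (m - 1)) ∧
      (∃ a b c d : E, AffineIndependent ℝ ![a, b, c, d] ∧
        HasEdges a b c d (2 * m + 2) (m + 4) (m + 6) (3 * m - 6) (m + 8) (2 * m - 2)) ∧
      (∀ a b c d : E, (HasEdges a b c d (m + 1) (m + 1) m 6 (m - 1) (m - 1) ∨
        HasEdges a b c d (2 * m + 2) (m + 4) (m + 6) (3 * m - 6) (m + 8) (2 * m - 2)) →
        dehn a b c d = 0)) ∧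
    ∃ S : Set ℝ, S.Countable ∧ ∀ m : ℝ, 4 < m → m ∉ S → ∀ a b c d : E,
      (HasEdges a b c d (m + 1) (m + 1) m 6 (m - 1) (m - 1) ∨
        HasEdges a b c d (2 * m + 2) (m + 4) (m + 6) (3 * m - 6) (m + 8) (2 * m - 2)) →
      LinearIndependent ℚ ![π, dihedral a b c d, dihedral c d a b] := by
  refine ⟨fun m hm => ⟨F1_exists hm, F2_exists hm, ?_⟩, excep, excep_countable, ?_⟩
  · rintro a b c d (h | h)
    · exact F1_dehn hm h
    · exact F2_dehn hm h
  · intro m hm hS a b c d h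
    have hs0 : (0 : ℝ) < Real.sqrt 3 := Real.sqrt_pos.mpr (by norm_num)
    have hs : (Real.sqrt 3) ^ 2 = 3 := Real.sq_sqrt (by norm_num)
    have hpos : 0 < m ^ 2 - 16 := by nlinarith
    have hv0 : 0 < Real.sqrt (m ^ 2 - 16) := Real.sqrt_pos.mpr hpos
    have hv : (Real.sqrt (m ^ 2 - 16)) ^ 2 = m ^ 2 - 16 := Real.sq_sqrt hpos.le
    have p1 : 0 < Real.sqrt 3 * (m + 4) := mul_pos hs0 (by linarith)
    have p2 : 0 < Real.sqrt 3 * (m - 4) := mul_pos hs0 (by linarith)
    have key : IsArg (dihedral a b c d) (Real.sqrt 3 * (m + 4)) ((m + 1) * Real.sqrt (m ^ 2 - 16))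
        ∧ IsArg (dihedral c d a b) (Real.sqrt 3 * (m - 4))
          ((m - 1) * Real.sqrt (m ^ 2 - 16)) := by
      rcases h with h | h
      · obtain ⟨h1, -, -, -, -, h6⟩ := F1_angles hm hs0 hs hv0 hv h
        exact ⟨h1, h6⟩
      · obtain ⟨h1, -, -, -, -, h6⟩ := F2_angles hm hs0 hs hv0 hv h
        exact ⟨h1, h6⟩
    have e1 : dihedral a b c d = fx m :=
      arg_eq_arctan (InnerProductGeometry.angle_nonneg _ _) (InnerProductGeometry.angle_le_pi _ _)
        p1 key.1
    have e2 : dihedral c d a b = fu m :=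
      arg_eq_arctan (InnerProductGeometry.angle_nonneg _ _) (InnerProductGeometry.angle_le_pi _ _)
        p2 key.2
    rw [e1, e2]
    exact linInd hm hS

end Pool.Agent.Results.MP_6c15a0_gt.DehnFamily
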