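import Pool.Agent.helper37.NL.KSg
import Pool.Agent.helper37.NL.KCo
import Pool.Agent.helper37.NL.KAc
import Pool.Agent.helper37.NL.Shp

/-!
Classification of the straight families of tetrahedra with Dehn invariant zero.

`E` is Euclidean 3-space, `dehn a b c d` is the Dehn invariant of the tetrahedron `abcd` in
`ℝ ⊗ (ℝ / πℤ)`, `lenv a b c d` is the vector of the six edge lengths `ab, ac, ad, bc, bd, cd`,
`shapes` is the set of the edge vectors, normalised to have sum one, of the nondegenerate tetrahedra
with Dehn invariant zero.  `relab p l` is the edge vector after relabelling the vertices by `p`,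
`F1v m = (m+1, m+1, m, 6, m-1, m-1)`, `F2v m = (2m+2, m+4, m+6, 3m-6, m+8, 2m-2)`, `Fam1`, `Fam2` are the
sets of the positive multiples of the `F1v m`, `F2v m`, `m > 4`, and `IsF l` says that
`relab p l` is in one of them for some `p`.
-/

namespace Pool.Agent.Results.MP_6c15a0_gt.StraightFamilies

open Pool.Agent.Helper93.Tet Pool.Agent.helper37.NP Pool.Agent.helper37.NL

theorem result :
    -- the line segments in the set of shapes are those in one of the two families
    (∀ x y : V6, x ≠ y → (segment ℝ x y ⊆ shapes ↔ (∑ e, x e = 1 ∧ ∑ e, y e = 1 ∧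
      ∃ p : Equiv.Perm (Fin 4),
        (∀ l ∈ segment ℝ x y, relab p l ∈ Fam1) ∨ (∀ l ∈ segment ℝ x y, relab p l ∈ Fam2)))) ∧
    -- edges in `k (K + K t)`, `t` transcendental over the field `K`
    (∀ (K : Subfield ℝ) (t : ℝ), Transcendental K t → ∀ p q : V6, (∀ e, p e ∈ K) →
      (∀ e, q e ∈ K) → LinearIndependent ℝ ![p, q] → ∀ k : ℝ, 0 < k →
      ∀ a b c d : E, AffineIndependent ℝ ![a, b, c, d] → lenv a b c d = k • (p + t • q) →
      (dehn a b c d = 0 ↔ IsF (lenv a b c d))) ∧
    -- edges which are rational combinations of algebraically independent numbers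
    ∀ (n : ℕ) (x : Fin n → ℝ), AlgebraicIndependent ℚ x → ∀ a b c d : E,
      AffineIndependent ℝ ![a, b, c, d] →
      (∀ e, lenv a b c d e ∈ Submodule.span ℚ (Set.range x)) → dehn a b c d = 0 →
      (∀ e f, ∃ r : ℚ, lenv a b c d e = (r : ℝ) * lenv a b c d f) ∨ IsF (lenv a b c d) := by
  refine ⟨?_, ?_, ?_⟩
  · intro x y hxy
    constructor
    · intro h
      obtain ⟨-, -, -, -, -, -, -, -, -, hx⟩ := h (left_mem_segment ℝ x y)
      obtain ⟨-, -, -, -, -, -, -, -, -, hy⟩ := h (right_mem_segment ℝ x y)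
      exact ⟨hx, hy, segment_class hxy h⟩
    · rintro ⟨hx, hy, p, h | h⟩ l hl
      · exact shapes_of_isF (isF_of_Fam1 (h l hl)) (sum_segment hx hy l hl)
      · exact shapes_of_isF (isF_of_Fam2 (h l hl)) (sum_segment hx hy l hl)
  · intro K t ht p q hp hq hpq k hk a b c d h hl
    exact ⟨fun hD => isF_of_dehn ht hp hq hpq h hk hl hD, fun hF => dehn_of_isF h hF⟩
  · intro n x hx a b c d h hl hD
    exact alg_class hx h hD hl

end Pool.Agent.Results.MP_6c15a0_gt.StraightFamilies
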