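import Pool.Agent.helper37.NP.ZFi
import Pool.Agent.helper37.NP.GSh
import Pool.Agent.helper37.NP.HTr
import Pool.Agent.helper37.NP.HTd
import Pool.Agent.helper37.NL.Str

/-!
The structure of the set of tetrahedra with Dehn invariant zero.

`E` is Euclidean 3-space, `dehn a b c d` is the Dehn invariant of the tetrahedron `abcd` in
`ℝ ⊗ (ℝ / πℤ)`, `lenv a b c d` is the vector of the six edge lengths `ab, ac, ad, bc, bd, cd` and
`shapes` is the set of the edge vectors, normalised to have sum one, of the nondegenerate tetrahedra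
with Dehn invariant zero.
-/

namespace Pool.Agent.Results.MP_6c15a0_gt.Structure

open Pool.Agent.Helper93.Tet Pool.Agent.helper37.NP Pool.Agent.helper37.NL

theorem result :
    -- the set of shapes has Hausdorff dimension one
    dimH shapes = 1 ∧
    -- it is the union of its points with algebraic coordinates and of countably many
    -- immersed real-analytic arcs, each contained in an algebraic curve over `ℚ`
    (∃ γ : ℕ → ℝ → V6,
      (∀ n, AnalyticOnNhd ℝ (γ n) (Set.Ioo (-1) 1) ∧
        (∀ t ∈ Set.Ioo (-1 : ℝ) 1, deriv (γ n) t ≠ 0) ∧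
        ∀ e f : Fin 6, ∃ P : MvPolynomial (Fin 2) ℚ, P ≠ 0 ∧
          ∀ t ∈ Set.Ioo (-1 : ℝ) 1, MvPolynomial.aeval ![γ n t e, γ n t f] P = 0) ∧
      shapes = {l | l ∈ shapes ∧ ∀ e, IsAlgebraic ℚ (l e)} ∪ ⋃ n, γ n '' Set.Ioo (-1) 1) ∧
    -- the quotients of the edge lengths generate a field of transcendence degree at most one
    (∀ a b c d : E, AffineIndependent ℝ ![a, b, c, d] → dehn a b c d = 0 →
      Algebra.trdeg ℚ (IntermediateField.adjoin ℚ
        (Set.range fun p : Fin 6 × Fin 6 => lenv a b c d p.1 / lenv a b c d p.2)) ≤ 1) ∧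
    -- there is no two-parameter family, not even one which is only continuously differentiable
    ∀ (U : Set (ℝ × ℝ)) (a b c d : ℝ × ℝ → E), IsOpen U → U.Nonempty →
      ContDiffOn ℝ 1 a U → ContDiffOn ℝ 1 b U → ContDiffOn ℝ 1 c U → ContDiffOn ℝ 1 d U →
      (∀ u ∈ U, AffineIndependent ℝ ![a u, b u, c u, d u]) →
      (∀ u ∈ U, ∀ (x : ℝ × ℝ) (k : ℝ),
        fderiv ℝ (fun y => lenv (a y) (b y) (c y) (d y)) u x = k • lenv (a u) (b u) (c u) (d u) →
          x = 0) →
      ∃ u ∈ U, dehn (a u) (b u) (c u) (d u) ≠ 0 := by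
  refine ⟨le_antisymm arcs_shapes.dimH_le one_le_dimH, structure_thm, ?_, ?_⟩
  · intro a b c d h hD
    obtain ⟨k, s, r, hs, hsp, hr⟩ := dehn_data hD
    have hT : lenv a b c d ∈ T := lenv_mem h
    rw [← ang_lenv h] at hr
    exact trdeg_quot_le (fun i => (T_pos hT i).ne')
      (fun e f => not_algInd hT s r hs hsp hr e f 0)
  · intro U a b c d hU hne ha hb hc hd hind himm
    exact main U hU hne a b c d ha hb hc hd hind himm

end Pool.Agent.Results.MP_6c15a0_gt.Structure
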