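import Pool.Agent.helper37.SY.Fin
import Pool.Agent.helper37.RO.Fin
import Pool.Agent.helper37.NL.Shp

/-!
Classification of the tetrahedra with a nontrivial symmetry and Dehn invariant zero, apart from
those whose edge quotients are all algebraic and whose symmetries have order at most two.

`E` is Euclidean 3-space, `dehn a b c d` is the Dehn invariant of the tetrahedron `abcd` in
`ℝ ⊗ (ℝ / πℤ)`, `lenv a b c d` is the vector of the six edge lengths `ab, ac, ad, bc, bd, cd` and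
`relab p l` is the edge vector after relabelling the vertices by `p`, so `relab p l = l` says that
`p` is induced by a symmetry of the tetrahedron.  `Sim l v` says that a tetrahedron with edge
vector `l` is similar to one with edge vector `v`.  The three families are
`F1v m = (m+1, m+1, m, 6, m-1, m-1)`, `H1v y = (√(3y²-3), y, 1, 1, y, 1)` (the tetrahedra of Hill)
and `H2v x = (2-2x, s-x, s+x, s+x, s-x, 2+2x)`, `s = √(3-3x²)`.
-/

namespace Pool.Agent.Results.MP_6c15a0_gt.SymmetricTetrahedra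

open Pool.Agent.Helper93.Tet Pool.Agent.helper37.NP Pool.Agent.helper37.NL Pool.Agent.helper37.SY
  Pool.Agent.helper37.RO

/-- up to relabelling of the vertices and scaling the edge vectors agree -/
def Sim (l v : V6) : Prop :=
  ∃ (q : Equiv.Perm (Fin 4)) (k : ℝ), 0 < k ∧ relab q l = k • v

theorem conc_iff {l : V6} : Conc l ↔ ((∃ m : ℝ, 4 < m ∧ Sim l (F1v m)) ∨
    (∃ y : ℝ, 1 < y ∧ y < 2 ∧ Sim l (H1v y)) ∨ ∃ x : ℝ, |x| < 1 / 2 ∧ Sim l (H2v x)) := by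
  constructor
  · rintro ⟨q, k, hk, ⟨m, hm, h⟩ | ⟨y, hy, hy', h⟩ | ⟨x, hx, h⟩⟩
    · exact Or.inl ⟨m, hm, q, k, hk, h⟩
    · exact Or.inr (Or.inl ⟨y, hy, hy', q, k, hk, h⟩)
    · exact Or.inr (Or.inr ⟨x, hx, q, k, hk, h⟩)
  · rintro (⟨m, hm, q, k, hk, h⟩ | ⟨y, hy, hy', q, k, hk, h⟩ | ⟨x, hx, q, k, hk, h⟩)
    · exact ⟨q, k, hk, Or.inl ⟨m, hm, h⟩⟩
    · exact ⟨q, k, hk, Or.inr (Or.inl ⟨y, hy, hy', h⟩)⟩
    · exact ⟨q, k, hk, Or.inr (Or.inr ⟨x, hx, h⟩)⟩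

theorem exists_of_mem {v : V6} (hv : v ∈ T) (hc : Conc v) :
    ∃ a b c d : E, AffineIndependent ℝ ![a, b, c, d] ∧ lenv a b c d = v ∧ dehn a b c d = 0 := by
  obtain ⟨a, b, c, d, h, hl⟩ := realize hv
  exact ⟨a, b, c, d, h, hl, conc_dehn h (by rw [hl]; exact hc)⟩

theorem conc_self {v : V6} (h : (∃ m : ℝ, 4 < m ∧ v = F1v m) ∨
    (∃ y : ℝ, 1 < y ∧ y < 2 ∧ v = H1v y) ∨ ∃ x : ℝ, |x| < 1 / 2 ∧ v = H2v x) : Conc v := by
  refine ⟨1, 1, one_pos, ?_⟩
  rw [relab_one]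
  rcases h with ⟨m, hm, h⟩ | ⟨y, hy, hy', h⟩ | ⟨x, hx, h⟩
  · exact Or.inl ⟨m, hm, by rw [one_smul]; exact h⟩
  · exact Or.inr (Or.inl ⟨y, hy, hy', by rw [one_smul]; exact h⟩)
  · exact Or.inr (Or.inr ⟨x, hx, by rw [one_smul]; exact h⟩)

theorem F1v_mem {m : ℝ} (hm : 4 < m) : F1v m ∈ T := by
  obtain ⟨a, b, c, d, hi, hl, -⟩ := exists_F1 hm
  rw [← hl]
  exact lenv_mem hi

theorem result :
    -- the classification
    (∀ a b c d : E, AffineIndependent ℝ ![a, b, c, d] → ∀ p : Equiv.Perm (Fin 4), p ≠ 1 →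
      relab p (lenv a b c d) = lenv a b c d →
      (p * p ≠ 1 ∨ ∃ e f : Fin 6, Transcendental ℚ (lenv a b c d e / lenv a b c d f)) →
      (dehn a b c d = 0 ↔ ((∃ m : ℝ, 4 < m ∧ Sim (lenv a b c d) (F1v m)) ∨
        (∃ y : ℝ, 1 < y ∧ y < 2 ∧ Sim (lenv a b c d) (H1v y)) ∨
        ∃ x : ℝ, |x| < 1 / 2 ∧ Sim (lenv a b c d) (H2v x)))) ∧
    -- symmetries of order at least three: one similarity class
    (∀ a b c d : E, AffineIndependent ℝ ![a, b, c, d] → ∀ p : Equiv.Perm (Fin 4), p * p ≠ 1 →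
      relab p (lenv a b c d) = lenv a b c d →
      (dehn a b c d = 0 ↔ Sim (lenv a b c d) ![2, √3, √3, √3, √3, 2])) ∧
    -- all members of the families are tetrahedra with Dehn invariant zero
    ∀ v : V6, ((∃ m : ℝ, 4 < m ∧ v = F1v m) ∨ (∃ y : ℝ, 1 < y ∧ y < 2 ∧ v = H1v y) ∨
        ∃ x : ℝ, |x| < 1 / 2 ∧ v = H2v x) →
      ∃ a b c d : E, AffineIndependent ℝ ![a, b, c, d] ∧ lenv a b c d = v ∧
        dehn a b c d = 0 := by
  refine ⟨?_, ?_, ?_⟩
  · intro a b c d h p hp hs htr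
    rw [← conc_iff]
    refine ⟨fun hD => ?_, fun hc => conc_dehn h hc⟩
    rcases htr with hpp | ⟨e, f, htr⟩
    · obtain ⟨q, k, hk, hq⟩ := (order_three h hpp hs).1 hD
      refine ⟨q, k, hk, Or.inr (Or.inr ⟨0, by norm_num, ?_⟩)⟩
      rw [H2v_zero]
      exact hq
    · exact sym_class h hD hp hs htr
  · intro a b c d h p hp hs
    exact order_three h hp hs
  · intro v hv
    refine exists_of_mem ?_ (conc_self hv)
    rcases hv with ⟨m, hm, rfl⟩ | ⟨y, hy, hy', rfl⟩ | ⟨x, hx, rfl⟩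
    · exact F1v_mem hm
    · exact (H1v_mem hy hy').1
    · exact (H2v_mem hx).1

end Pool.Agent.Results.MP_6c15a0_gt.SymmetricTetrahedra
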